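import Mathlib

namespace Pool.Agent.Results.MP_df7c80_co.Fifteen

open SimpleGraph

/-- `G` has a cycle with `l` vertices `f 0, ..., f (l-1)` (used for `l ≥ 4`). -/
def HasCycle {V : Type} (G : SimpleGraph V) (l : ℕ) : Prop :=
  ∃ f : ℕ → V, (∀ i < l, ∀ j < l, f i = f j → i = j) ∧
    (∀ i, i + 1 < l → G.Adj (f i) (f (i + 1))) ∧ G.Adj (f (l - 1)) (f 0)

/-- Saturated for the cycles of length at least 4 and congruent to 1 modulo 3. -/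
def Saturated {n : ℕ} (G : SimpleGraph (Fin n)) : Prop :=
  (∀ l, 4 ≤ l → l % 3 = 1 → ¬ HasCycle G l) ∧
    ∀ x y, x ≠ y → ¬ G.Adj x y → ∃ l, 4 ≤ l ∧ l % 3 = 1 ∧ HasCycle (G ⊔ edge x y) l

/-- The saturation number. -/
noncomputable def sat (n : ℕ) : ℕ :=
  sInf {e | ∃ G : SimpleGraph (Fin n), Saturated G ∧ G.edgeSet.ncard = e}

def nbL : List (List (Fin 15)) := [[14], [10, 12, 14], [6], [6, 8, 14], [5], [4, 7, 11, 14], [2, 3, 11], [5, 11, 13], [3], [12], [1], [5, 6, 7, 12], [1, 9, 11], [7], [0, 1, 3, 5]]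

def nb (a : Fin 15) : List (Fin 15) := nbL.getD a.val []

def G : SimpleGraph (Fin 15) where
  Adj a b := b ∈ nb a
  symm := ⟨by decide⟩
  loopless := ⟨by decide⟩

instance : DecidableRel G.Adj := fun a b => inferInstanceAs (Decidable (b ∈ nb a))

def ex (s : Fin 15) : ℕ → Fin 15 → ℕ → ℕ → Bool
  | 0, _, _, _ => false
  | k + 1, u, m, i => decide (¬ (3 ≤ i ∧ i % 3 = 0 ∧ s ∈ nb u)) &&
      (nb u).all (fun y => m.testBit y.val || ex s k y (m ||| 1 <<< y.val) (i + 1))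

lemma ex_ok : ∀ s, ex s 16 s (0 ||| 1 <<< s.val) 0 = true := by decide +kernel

lemma tb (m k i : ℕ) : (m ||| 1 <<< k).testBit i = (m.testBit i || decide (k = i)) := by
  rw [Nat.testBit_or, Nat.one_shiftLeft, Nat.testBit_two_pow]

lemma free (l : ℕ) (h4 : 4 ≤ l) (h1 : l % 3 = 1) : ¬ HasCycle G l := by
  rintro ⟨f, hi, ha, hl⟩
  have key : ∀ k i fu m, i + k + 1 = l → ex (f 0) fu (f i) m i = true →
      (∀ j, i < j → j < l → m.testBit (f j).val = false) → False := by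
    intro k
    induction k with
    | zero =>
      intro i fu m e h _
      cases fu with
      | zero => simp [ex] at h
      | succ fu =>
        simp only [ex, Bool.and_eq_true, decide_eq_true_eq] at h
        have : l - 1 = i := by omega
        rw [this] at hl
        exact h.1 ⟨by omega, by omega, hl⟩
    | succ k ih =>
      intro i fu m e h hm
      cases fu with
      | zero => simp [ex] at h
      | succ fu =>
        simp only [ex, Bool.and_eq_true, List.all_eq_true, Bool.or_eq_true] at h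
        have h2 := h.2 (f (i + 1)) (ha i (by omega))
        rw [hm (i + 1) (by omega) (by omega)] at h2
        refine ih (i + 1) fu _ (by omega) (by simpa using h2) ?_
        intro j j1 j2
        rw [tb, hm j (by omega) j2]
        simp only [Bool.false_or, decide_eq_false_iff_not]
        intro he
        have := hi (i + 1) (by omega) j j2 (Fin.ext he)
        omega
  refine key (l - 1) 0 16 _ (by omega) (ex_ok _) ?_
  intro j j1 j2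
  rw [tb]
  simp only [Nat.zero_testBit, Bool.false_or, decide_eq_false_iff_not]
  intro he
  have := hi 0 (by omega) j j2 (Fin.ext he)
  omega

def T : List (List (List (Fin 15))) :=
  [[[], [0, 14, 5, 7, 11, 12, 1], [0, 14, 5, 7, 11, 6, 2], [0, 14, 5, 7, 11, 6, 3], [0, 14, 5, 4], [0, 14, 3, 6, 11, 7, 5], [0, 14, 3, 6], [0, 14, 5, 7], [0, 14, 3, 8], [0, 14, 5, 7, 11, 12, 9], [0, 14, 1, 10], [0, 14, 5, 11], [0, 14, 1, 12], [0, 14, 3, 6, 11, 7, 13], []],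
   [[1, 12, 11, 7, 5, 14, 0], [], [1, 14, 5, 7, 11, 6, 2], [1, 14, 5, 7, 11, 6, 3], [1, 14, 5, 4], [1, 12, 11, 5], [1, 14, 3, 6], [1, 14, 5, 7], [1, 14, 3, 8], [1, 14, 5, 7, 11, 12, 9], [], [1, 14, 5, 11], [], [1, 14, 3, 6, 11, 7, 13], []],
   [[2, 6, 11, 12, 1, 14, 0], [2, 6, 11, 7, 5, 14, 1], [], [2, 6, 11, 12, 1, 14, 3], [2, 6, 3, 14, 1, 12, 11, 7, 5, 4], [2, 6, 11, 5], [], [2, 6, 11, 7], [2, 6, 3, 8], [2, 6, 3, 14, 1, 12, 9], [2, 6, 11, 5, 14, 1, 10], [2, 6, 3, 14, 5, 7, 11], [2, 6, 11, 12], [2, 6, 3, 14, 5, 7, 13], [2, 6, 3, 14]],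
   [[3, 6, 11, 12, 1, 14, 0], [3, 14, 5, 7, 11, 12, 1], [3, 14, 5, 7, 11, 6, 2], [], [3, 14, 5, 4], [3, 6, 11, 5], [], [3, 14, 5, 7], [], [3, 14, 5, 7, 11, 12, 9], [3, 14, 1, 10], [3, 14, 5, 11], [3, 14, 1, 12], [3, 14, 1, 12, 11, 7, 13], []],
   [[4, 5, 14, 0], [4, 5, 14, 1], [4, 5, 7, 11, 12, 1, 14, 3, 6, 2], [4, 5, 14, 3], [], [], [4, 5, 11, 6], [4, 5, 11, 7], [4, 5, 7, 11, 6, 3, 8], [4, 5, 7, 11, 6, 3, 14, 1, 12, 9], [4, 5, 7, 11, 12, 1, 10], [4, 5, 7, 11], [4, 5, 11, 12], [4, 5, 7, 13], [4, 5, 7, 11, 12, 1, 14]],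
   [[5, 7, 11, 12, 1, 14, 0], [5, 11, 12, 1], [5, 11, 6, 2], [5, 11, 6, 3], [], [], [5, 14, 3, 6], [], [5, 14, 3, 8], [5, 11, 12, 9], [5, 14, 1, 10], [], [5, 14, 1, 12], [5, 11, 7, 13], []],
   [[6, 3, 14, 0], [6, 11, 12, 1], [], [], [6, 11, 5, 4], [6, 11, 7, 5], [], [6, 11, 5, 7], [6, 11, 12, 1, 14, 3, 8], [6, 11, 12, 9], [6, 11, 7, 5, 14, 1, 10], [], [6, 11, 7, 5, 14, 1, 12], [6, 11, 7, 13], [6, 11, 5, 14]],
   [[7, 5, 14, 0], [7, 11, 12, 1], [7, 11, 6, 2], [7, 11, 6, 3], [7, 11, 5, 4], [], [7, 5, 11, 6], [], [7, 11, 12, 1, 14, 3, 8], [7, 11, 12, 9], [7, 11, 6, 3, 14, 1, 10], [], [7, 5, 11, 12], [], [7, 11, 5, 14]],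
   [[8, 3, 14, 0], [8, 3, 14, 1], [8, 3, 6, 2], [], [8, 3, 6, 11, 7, 5, 4], [8, 3, 14, 5], [8, 3, 14, 5, 7, 11, 6], [8, 3, 14, 1, 12, 11, 7], [], [8, 3, 14, 5, 11, 12, 9], [8, 3, 6, 11, 12, 1, 10], [8, 3, 6, 11], [8, 3, 14, 5, 7, 11, 12], [8, 3, 14, 5, 11, 7, 13], [8, 3, 6, 11, 12, 1, 14]],
   [[9, 12, 11, 7, 5, 14, 0], [9, 12, 11, 7, 5, 14, 1], [9, 12, 1, 14, 3, 6, 2], [9, 12, 11, 7, 5, 14, 3], [9, 12, 1, 14, 3, 6, 11, 7, 5, 4], [9, 12, 11, 5], [9, 12, 11, 6], [9, 12, 11, 7], [9, 12, 11, 5, 14, 3, 8], [], [9, 12, 1, 10], [9, 12, 1, 14, 5, 7, 11], [], [9, 12, 1, 14, 5, 7, 13], [9, 12, 1, 14]],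
   [[10, 1, 14, 0], [], [10, 1, 14, 5, 11, 6, 2], [10, 1, 14, 3], [10, 1, 12, 11, 7, 5, 4], [10, 1, 14, 5], [10, 1, 14, 5, 7, 11, 6], [10, 1, 14, 3, 6, 11, 7], [10, 1, 12, 11, 6, 3, 8], [10, 1, 12, 9], [], [10, 1, 12, 11], [10, 1, 14, 5, 7, 11, 12], [10, 1, 14, 5, 11, 7, 13], [10, 1, 12, 11, 7, 5, 14]],
   [[11, 5, 14, 0], [11, 5, 14, 1], [11, 12, 1, 14, 3, 6, 2], [11, 5, 14, 3], [11, 7, 5, 4], [], [], [], [11, 6, 3, 8], [11, 7, 5, 14, 1, 12, 9], [11, 12, 1, 10], [], [], [11, 5, 7, 13], [11, 12, 1, 14]],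
   [[12, 1, 14, 0], [], [12, 11, 6, 2], [12, 11, 6, 3], [12, 11, 5, 4], [12, 11, 7, 5], [12, 11, 7, 5, 14, 3, 6], [12, 11, 5, 7], [12, 11, 7, 5, 14, 3, 8], [], [12, 11, 7, 5, 14, 1, 10], [], [], [12, 11, 7, 13], [12, 11, 5, 14]],
   [[13, 7, 11, 12, 1, 14, 0], [13, 7, 11, 6, 3, 14, 1], [13, 7, 5, 14, 3, 6, 2], [13, 7, 11, 12, 1, 14, 3], [13, 7, 5, 4], [13, 7, 11, 5], [13, 7, 11, 6], [], [13, 7, 11, 5, 14, 3, 8], [13, 7, 5, 14, 1, 12, 9], [13, 7, 11, 5, 14, 1, 10], [13, 7, 5, 11], [13, 7, 11, 12], [], [13, 7, 5, 14]],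
   [[], [], [14, 3, 6, 2], [], [14, 3, 6, 11, 7, 5, 4], [], [14, 5, 11, 6], [14, 5, 11, 7], [14, 5, 7, 11, 6, 3, 8], [14, 1, 12, 9], [14, 5, 7, 11, 12, 1, 10], [14, 5, 7, 11], [14, 5, 11, 12], [14, 5, 7, 13], []]]

def P (x y : Fin 15) : List (Fin 15) := (T.getD x.val []).getD y.val []

set_option synthInstance.maxSize 4000 in
lemma P_ok : ∀ x y, x ≠ y → ¬ G.Adj x y → 4 ≤ (P x y).length ∧ (P x y).length % 3 = 1 ∧
    (∀ i < (P x y).length, ∀ j < (P x y).length, (P x y).getD i 0 = (P x y).getD j 0 → i = j) ∧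
    (∀ i < (P x y).length - 1, G.Adj ((P x y).getD i 0) ((P x y).getD (i + 1) 0)) ∧
    (P x y).getD ((P x y).length - 1) 0 = y ∧ (P x y).getD 0 0 = x := by
  decide +kernel

lemma satur : Saturated G := by
  refine ⟨free, fun x y hxy hn => ?_⟩
  obtain ⟨a1, a2, a3, a4, a5, a6⟩ := P_ok x y hxy hn
  refine ⟨_, a1, a2, fun i => (P x y).getD i 0, a3, fun i hi => Or.inl (a4 i (by omega)), ?_⟩
  right
  simp only [a5, a6, edge_adj]
  exact ⟨Or.inr ⟨trivial, trivial⟩, hxy.symm⟩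

theorem result :
    ∃ n : ℕ, 1 ≤ n ∧ (∃ H : SimpleGraph (Fin n), Saturated H) ∧
      (sat n : ℤ) < ⌈(5 * n / 4 - 3 / 2 : ℚ)⌉ := by
  refine ⟨15, by norm_num, ⟨G, satur⟩, ?_⟩
  have h1 : sat 15 ≤ 17 := by
    refine Nat.sInf_le ⟨G, satur, ?_⟩
    rw [← coe_edgeFinset, Set.ncard_coe_finset]
    decide +kernel
  rw [Int.lt_ceil]
  have : ((sat 15 : ℕ) : ℚ) ≤ 17 := by exact_mod_cast h1
  push_cast
  linarith

end Pool.Agent.Results.MP_df7c80_co.Fifteen
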